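import Pool.Agent.H67.AG.T1

set_option autoImplicit false

open MeasureTheory ProbabilityTheory Filter Topology Finset
open scoped Nat ENNReal

namespace Pool.Agent.H48.AG

open Pool.Agent.H67.AG

section

variable {X : Type} [mX : MeasurableSpace X] [StandardBorelSpace X] (μ : Measure X)
  [IsProbabilityMeasure μ] (Z : SA X)

theorem kap_apply (x : X) : kap μ Z x = condExpKernel μ Z.1 x := by
  unfold kap
  rw [Kernel.comap_apply]
  rfl

theorem prob_JJ : IsProbabilityMeasure (JJ μ Z) := by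
  unfold JJ
  infer_instance

/-- the two points of the self-joining are in the same sets of `Z` -/
theorem same_sets (h : T_J1) (A : Set X) (hA : MeasurableSet[Z.1] A) :
    ∀ᵐ q ∂(JJ μ Z), (q.1 ∈ A ↔ q.2 ∈ A) := by
  have hp := prob_JJ μ Z
  -- one direction for any set of `Z`
  have key : ∀ B : Set X, MeasurableSet[Z.1] B → ∀ᵐ q ∂(JJ μ Z), ¬ (q.1 ∈ B ∧ q.2 ∈ Bᶜ) := by
    intro B hB
    have hB' : MeasurableSet B := Z.2 B hB
    have hF : Measurable (B.indicator (fun _ => (1 : ℝ))) := measurable_const.indicator hB'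
    have hG : Measurable (Bᶜ.indicator (fun _ => (1 : ℝ))) :=
      measurable_const.indicator hB'.compl
    have hbF : ∀ (S : Set X) (x : X), |S.indicator (fun _ => (1 : ℝ)) x| ≤ 1 := by
      intro S x
      by_cases hx : x ∈ S
      · simp [hx]
      · simp [hx]
    have h1 := h X μ Z _ _ hF hG ⟨1, hbF B⟩ ⟨1, hbF Bᶜ⟩
    have e1 : μ[B.indicator (fun _ => (1 : ℝ)) | Z.1] = B.indicator (fun _ => (1 : ℝ)) := by
      refine condExp_of_stronglyMeasurable Z.2 ?_ ?_
      · exact (Measurable.indicator (m := Z.1) measurable_const hB).stronglyMeasurable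
      · exact (integrable_const (1 : ℝ)).indicator hB'
    have e2 : μ[Bᶜ.indicator (fun _ => (1 : ℝ)) | Z.1] = Bᶜ.indicator (fun _ => (1 : ℝ)) := by
      refine condExp_of_stronglyMeasurable Z.2 ?_ ?_
      · exact (Measurable.indicator (m := Z.1) measurable_const
          (MeasurableSet.compl hB)).stronglyMeasurable
      · exact (integrable_const (1 : ℝ)).indicator hB'.compl
    rw [e1, e2] at h1
    have h2 : ∫ x, B.indicator (fun _ => (1 : ℝ)) x * Bᶜ.indicator (fun _ => (1 : ℝ)) x ∂μ = 0 := by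
      have : (fun x => B.indicator (fun _ => (1 : ℝ)) x * Bᶜ.indicator (fun _ => (1 : ℝ)) x) =
          fun _ => (0 : ℝ) := by
        funext x
        by_cases hx : x ∈ B
        · simp [hx]
        · simp [hx]
      rw [this]
      simp
    rw [h2] at h1
    have h3 : (fun q : X × X => B.indicator (fun _ => (1 : ℝ)) q.1 *
        Bᶜ.indicator (fun _ => (1 : ℝ)) q.2) =
        ((Prod.fst ⁻¹' B) ∩ (Prod.snd ⁻¹' Bᶜ)).indicator (fun _ => (1 : ℝ)) := by
      funext q
      by_cases hx : q.1 ∈ B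
      · by_cases hy : q.2 ∈ Bᶜ
        · rw [Set.indicator_of_mem hx, Set.indicator_of_mem hy, Set.indicator_of_mem
            (show q ∈ (Prod.fst ⁻¹' B) ∩ (Prod.snd ⁻¹' Bᶜ) from ⟨hx, hy⟩)]
          norm_num
        · rw [Set.indicator_of_notMem hy, Set.indicator_of_notMem
            (show q ∉ (Prod.fst ⁻¹' B) ∩ (Prod.snd ⁻¹' Bᶜ) from fun hh => hy hh.2), mul_zero]
      · rw [Set.indicator_of_notMem hx, Set.indicator_of_notMem
            (show q ∉ (Prod.fst ⁻¹' B) ∩ (Prod.snd ⁻¹' Bᶜ) from fun hh => hx hh.1), zero_mul]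
    have hm : MeasurableSet ((Prod.fst ⁻¹' B) ∩ (Prod.snd ⁻¹' Bᶜ) : Set (X × X)) :=
      (measurable_fst hB').inter (measurable_snd hB'.compl)
    rw [h3, integral_indicator_const _ hm, smul_eq_mul, mul_one] at h1
    rw [measureReal_eq_zero_iff] at h1
    rw [ae_iff]
    refine measure_mono_null ?_ h1
    intro q hq
    rw [Set.mem_ofPred_eq, not_not] at hq
    exact hq
  filter_upwards [key A hA, key Aᶜ (MeasurableSet.compl hA)] with q h1 h2
  constructor
  · intro ha
    by_contra hb
    exact h1 ⟨ha, hb⟩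
  · intro hb
    by_contra ha
    exact h2 ⟨ha, fun hh => hh hb⟩

/-- a real function measurable for `Z` takes the same value at the two points -/
theorem same_value (h : T_J1) (g : X → ℝ) (hg : Measurable[Z.1] g) :
    ∀ᵐ q ∂(JJ μ Z), g q.1 = g q.2 := by
  have h1 : ∀ᵐ q ∂(JJ μ Z), ∀ r : ℚ, (q.1 ∈ {x | g x < r} ↔ q.2 ∈ {x | g x < r}) := by
    rw [ae_all_iff]
    intro r
    exact same_sets μ Z h _ (hg measurableSet_Iio)
  filter_upwards [h1] with q hq
  rcases lt_trichotomy (g q.1) (g q.2) with hlt | heq | hgt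
  · obtain ⟨r, hr1, hr2⟩ := exists_rat_btwn hlt
    exact absurd ((hq r).1 hr1) (not_lt.2 hr2.le)
  · exact heq
  · obtain ⟨r, hr1, hr2⟩ := exists_rat_btwn hgt
    exact absurd ((hq r).2 hr1) (not_lt.2 hr2.le)

theorem same_kernel (h : T_J1) : ∀ᵐ q ∂(JJ μ Z), kap μ Z q.1 = kap μ Z q.2 := by
  have he := measurableEmbedding_embeddingReal X
  have h1 : ∀ᵐ q ∂(JJ μ Z), ∀ ab : ℚ × ℚ,
      (kap μ Z q.1).real (embeddingReal X ⁻¹' Set.Ioo (ab.1 : ℝ) ab.2) =
        (kap μ Z q.2).real (embeddingReal X ⁻¹' Set.Ioo (ab.1 : ℝ) ab.2) := by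
    rw [ae_all_iff]
    intro ab
    refine same_value μ Z h
      (fun x => (kap μ Z x).real (embeddingReal X ⁻¹' Set.Ioo (ab.1 : ℝ) ab.2)) ?_
    have hs : MeasurableSet (embeddingReal X ⁻¹' Set.Ioo (ab.1 : ℝ) ab.2) :=
      he.measurable measurableSet_Ioo
    have h2 : Measurable[Z.1] fun x =>
        condExpKernel μ Z.1 x (embeddingReal X ⁻¹' Set.Ioo (ab.1 : ℝ) ab.2) :=
      measurable_condExpKernel hs
    have h3 := h2.ennreal_toReal
    have h4 : (fun x => (kap μ Z x).real (embeddingReal X ⁻¹' Set.Ioo (ab.1 : ℝ) ab.2)) =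
        fun x => (condExpKernel μ Z.1 x
          (embeddingReal X ⁻¹' Set.Ioo (ab.1 : ℝ) ab.2)).toReal := by
      funext x
      rw [kap_apply]
      rfl
    rw [h4]
    exact h3
  filter_upwards [h1] with q hq
  have h5 : (kap μ Z q.1).map (embeddingReal X) = (kap μ Z q.2).map (embeddingReal X) := by
    have hp1 : IsProbabilityMeasure ((kap μ Z q.1).map (embeddingReal X)) :=
      Measure.isProbabilityMeasure_map he.measurable.aemeasurable
    refine Real.measure_ext_Ioo_rat fun a b => ?_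
    rw [Measure.map_apply he.measurable measurableSet_Ioo,
      Measure.map_apply he.measurable measurableSet_Ioo]
    have h6 := hq (a, b)
    rwa [measureReal_def, measureReal_def, ENNReal.toReal_eq_toReal_iff' (measure_ne_top _ _)
      (measure_ne_top _ _)] at h6
  ext s hs
  have h7 : ∀ ν : Measure X, ν s = ν.map (embeddingReal X) (embeddingReal X '' s) := by
    intro ν
    rw [he.map_apply, he.injective.preimage_image]
  rw [h7, h7 (kap μ Z q.2), h5]

end

theorem pf_J4 (h : T_J1) : T_J4 := by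
  intro X _ _ μ _ Z
  refine ⟨same_kernel μ Z h, fun A hA => same_sets μ Z h A hA, ?_⟩
  intro f hf hC
  obtain ⟨C, hC⟩ := hC
  have hi : Integrable f μ := by
    refine Integrable.of_bound hf.aestronglyMeasurable C (ae_of_all _ fun x => ?_)
    rw [Real.norm_eq_abs]
    exact hC x
  have h1 := condExp_ae_eq_integral_condExpKernel Z.2 hi
  filter_upwards [h1] with x hx
  rw [hx, kap_apply]

end Pool.Agent.H48.AG
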