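import Pool.Agent.H67.AG.T6

set_option autoImplicit false

open MeasureTheory ProbabilityTheory Filter Topology Finset
open scoped Nat ENNReal

namespace Pool.Agent.H48.AG

open Pool.Agent.H67.AG

theorem gap_real {x y s : ℝ} (h1 : x ≤ 113 / 1000) (h2 : 113 / 1000 < y) (h3 : |y - x| ≤ s)
    (h4 : s ≤ 1 / 100) : 1 / 10 ≤ y - y ^ 2 := by
  have h5 := (abs_le.1 h3).2
  nlinarith

theorem pf_S4 : T_S4 := by
  intro Ω m mΩ P _ M s₀ E A hm hM hMi hMi2 hs₀ hA h0 hstep hE0 hEadd hEint
  obtain ⟨B, hB⟩ : ∃ B : ℕ → Set Ω, ∀ t, B t = A ∩ ({ω | s₀ ω ≤ 1 / 100} ∩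
      ((⋂ u ∈ Finset.range t, {ω | M u ω ≤ 113 / 1000}) ∩ {ω | 113 / 1000 < M t ω})) :=
    ⟨_, fun t => rfl⟩
  obtain ⟨U, hU⟩ : ∃ U : ℕ → Set Ω, ∀ N, U N = ⋃ t ∈ Finset.range N, B t := ⟨_, fun N => rfl⟩
  have hBm : ∀ t, MeasurableSet[m] (B t) := by
    intro t
    rw [hB]
    refine MeasurableSet.inter hA (MeasurableSet.inter (hs₀ measurableSet_Iic)
      (MeasurableSet.inter ?_ (hM t measurableSet_Ioi)))
    exact Finset.measurableSet_biInter _ fun u _ => hM u measurableSet_Iic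
  have hUm : ∀ N, MeasurableSet[m] (U N) := by
    intro N
    rw [hU]
    exact Finset.measurableSet_biUnion _ fun t _ => hBm t
  have hUA : ∀ N, U N ⊆ A := by
    intro N ω hω
    rw [hU, Set.mem_iUnion₂] at hω
    obtain ⟨t, -, ht⟩ := hω
    rw [hB] at ht
    exact ht.1
  have hae : ∀ t, ∀ᵐ ω ∂P, ω ∈ B t → (1 : ℝ) / 10 ≤ M t ω - M t ω ^ 2 := by
    intro t
    rcases t with _ | t
    · filter_upwards [h0] with ω hω hmem
      rw [hB] at hmem
      have h1 : (113 : ℝ) / 1000 < M 0 ω := hmem.2.2.2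
      rw [hω] at h1
      norm_num at h1
    · filter_upwards [hstep t] with ω hω hmem
      rw [hB] at hmem
      obtain ⟨-, h1, h2, h3⟩ := hmem
      have h4 : M t ω ≤ 113 / 1000 := by
        rw [Set.mem_iInter₂] at h2
        exact h2 t (Finset.mem_range.2 (Nat.lt_succ_self t))
      exact gap_real h4 h3 hω h1
  have hBE : ∀ t, P.real (B t) ≤ 10 * E (B t) := by
    intro t
    have h1 : ∫ ω in B t, (1 / 10 : ℝ) ∂P ≤ ∫ ω in B t, (M t ω - M t ω ^ 2) ∂P :=
      setIntegral_mono_on_ae (integrable_const _).integrableOn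
        ((hMi t).sub (hMi2 t)).integrableOn (hm _ (hBm t)) (hae t)
    have h2 := hEint t (B t) (hBm t)
    rw [setIntegral_const, smul_eq_mul] at h1
    linarith
  have hUE : ∀ N, P.real (U N) ≤ 10 * E (U N) := by
    intro N
    induction N with
    | zero =>
      have h1 : U 0 = ∅ := by rw [hU]; simp
      rw [h1]
      have h2 := hE0 ∅ (@MeasurableSet.empty Ω m)
      rw [measureReal_empty]
      linarith
    | succ N ih =>
      have h1 : U (N + 1) = U N ∪ B N := by
        rw [hU, hU, Finset.range_add_one, Finset.set_biUnion_insert, Set.union_comm]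
      have hdis : Disjoint (U N) (B N) := by
        rw [Set.disjoint_left]
        intro ω h2 h3
        rw [hU, Set.mem_iUnion₂] at h2
        obtain ⟨t, ht, h4⟩ := h2
        rw [hB] at h3 h4
        have h5 : M t ω ≤ 113 / 1000 := by
          have h6 := h3.2.2.1
          rw [Set.mem_iInter₂] at h6
          exact h6 t ht
        have h7 : (113 : ℝ) / 1000 < M t ω := h4.2.2.2
        exact absurd h7 (not_lt.2 h5)
      rw [h1, hEadd _ _ (hUm N) (hBm N) hdis,
        measureReal_union hdis (hm _ (hBm N))]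
      have h8 := hBE N
      linarith
  have hUA2 : ∀ N, P.real (U N) ≤ 10 * E A := by
    intro N
    have h1 : A = U N ∪ (A \ U N) := (Set.union_sdiff_cancel (hUA N)).symm
    have h2 : MeasurableSet[m] (A \ U N) := MeasurableSet.diff hA (hUm N)
    have h3 : E A = E (U N) + E (A \ U N) := by
      conv_lhs => rw [h1]
      exact hEadd _ _ (hUm N) h2 Set.disjoint_sdiff_right
    have h4 := hE0 _ h2
    have h5 := hUE N
    linarith
  have hmono : Monotone U := by
    intro N N' h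
    rw [hU, hU]
    exact Set.biUnion_subset_biUnion_left fun t ht =>
      Finset.mem_range.2 ((Finset.mem_range.1 ht).trans_le h)
  have hunion : (⋃ N, U N) = A ∩ {ω | s₀ ω ≤ 1 / 100 ∧ ∃ t, 113 / 1000 < M t ω} := by
    ext ω
    rw [Set.mem_iUnion]
    constructor
    · rintro ⟨N, hN⟩
      rw [hU, Set.mem_iUnion₂] at hN
      obtain ⟨t, -, ht⟩ := hN
      rw [hB] at ht
      exact ⟨ht.1, ht.2.1, t, ht.2.2.2⟩
    · rintro ⟨h1, h2, h3⟩
      classical
      refine ⟨Nat.find h3 + 1, ?_⟩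
      rw [hU, Set.mem_iUnion₂]
      refine ⟨Nat.find h3, Finset.mem_range.2 (Nat.lt_succ_self _), ?_⟩
      rw [hB]
      refine ⟨h1, h2, ?_, Nat.find_spec h3⟩
      rw [Set.mem_iInter₂]
      intro u hu
      exact not_lt.1 (Nat.find_min h3 (Finset.mem_range.1 hu))
  rw [← hunion]
  have ht : Tendsto (fun N => P.real (U N)) atTop (𝓝 (P.real (⋃ N, U N))) :=
    (ENNReal.tendsto_toReal (measure_ne_top _ _)).comp (tendsto_measure_iUnion_atTop hmono)
  exact le_of_tendsto' ht hUA2

end Pool.Agent.H48.AG
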