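import Pool.Agent.H64.AG.Defs

/-!
# Complete accumulation points in Lindelof sets (module LAC of MP_bff2e5_gt)
-/

set_option autoImplicit false

open Topology Cardinal

namespace Pool.Agent.H48.AG

open Pool.Agent.H64.AG Pool.Agent.H64.AK Pool.Agent.H20.SL Pool.Agent.H60.CP

theorem lac : T_LAC := by
  intro X L hL J l hl hJ
  by_contra hcon
  push Not at hcon
  choose! U hUo hUm hUc using hcon
  obtain ⟨t, htc, hcov⟩ := hL.elim_nhds_subcover' (fun f _ => U f)
    (fun f hf => (hUo f hf).mem_nhds (hUm f hf))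
  apply hJ
  have hun : (Set.univ : Set J) ⊆ ⋃ f ∈ t, {j | l j ∈ U (f : X → ℝ)} := by
    intro j _
    have := hcov (hl j)
    simp only [Set.mem_iUnion] at this ⊢
    obtain ⟨f, hf, hj⟩ := this
    exact ⟨f, hf, hj⟩
  have hc : (⋃ f ∈ t, {j | l j ∈ U (f : X → ℝ)}).Countable :=
    htc.biUnion fun f _ => hUc f f.2
  exact Set.countable_univ_iff.mp (hc.mono hun)

end Pool.Agent.H48.AG
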