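import Pool.Agent.H64.AG.Defs

/-!
# Two members of an uncountable family which do not interact (module SZ of MP_bff2e5_gt)
-/

set_option autoImplicit false

open Topology Cardinal

namespace Pool.Agent.H48.AG

open Pool.Agent.H64.AG Pool.Agent.H64.AK Pool.Agent.H20.SL Pool.Agent.H60.CP

/-- complete accumulation points in compact spaces -/
theorem sz_acc {Z A : Type} [TopologicalSpace Z] [CompactSpace Z] (z : A → Z)
    (hA : ¬ Countable A) :
    ∃ w : Z, ∀ U : Set Z, IsOpen U → w ∈ U → ¬ {b | z b ∈ U}.Countable := by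
  by_contra hcon
  push Not at hcon
  choose U hUo hUm hUc using hcon
  obtain ⟨t, ht⟩ := isCompact_univ.elim_nhds_subcover U
    (fun w _ => (hUo w).mem_nhds (hUm w))
  apply hA
  have hun : (Set.univ : Set A) ⊆ ⋃ w ∈ t, {b | z b ∈ U w} := by
    intro b _
    have := ht.2 (Set.mem_univ (z b))
    simp only [Set.mem_iUnion] at this ⊢
    obtain ⟨w, hw, hb⟩ := this
    exact ⟨w, hw, hb⟩
  have hc : (⋃ w ∈ t, {b | z b ∈ U w}).Countable :=
    t.countable_toSet.biUnion fun w _ => hUc w
  exact Set.countable_univ_iff.mp (hc.mono hun)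

theorem sz : T_SZ := by
  intro Y _ _ hY ι κ _ _ A z h c hA hcont hc hcnt
  by_contra hcon
  have hno : ∀ b b', b ≠ b' → (∃ i j, c ≤ |h b j (z b' i)|) ∨ (∃ i j, c ≤ |h b' j (z b i)|) := by
    intro b b' hbb
    by_contra hn
    push Not at hn
    exact hcon ⟨b, b', hbb, fun i j => ⟨hn.1 i j, hn.2 i j⟩⟩
  obtain ⟨w, hw⟩ := sz_acc z hA
  have hclE : ∀ b', IsClosed {v : ι → Y | ∃ i j, c ≤ |h b' j (v i)|} := by
    intro b'
    have : {v : ι → Y | ∃ i j, c ≤ |h b' j (v i)|} =
        ⋃ i, ⋃ j, {v : ι → Y | c ≤ |h b' j (v i)|} := by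
      ext v; simp
    rw [this]
    apply isClosed_iUnion_of_finite
    intro i
    apply isClosed_iUnion_of_finite
    intro j
    exact isClosed_le continuous_const ((hcont b' j).comp (continuous_apply i)).abs
  have hclT : ∀ b', IsClosed {v : ι → Y | ∀ i j, |h b' j (v i)| ≤ c / 2} := by
    intro b'
    have : {v : ι → Y | ∀ i j, |h b' j (v i)| ≤ c / 2} =
        ⋂ i, ⋂ j, {v : ι → Y | |h b' j (v i)| ≤ c / 2} := by
      ext v; simp
    rw [this]
    apply isClosed_iInter
    intro i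
    apply isClosed_iInter
    intro j
    exact isClosed_le ((hcont b' j).comp (continuous_apply i)).abs continuous_const
  -- (3)
  have hwT : ∀ b', w ∈ {v : ι → Y | ∀ i j, |h b' j (v i)| ≤ c / 2} := by
    intro b'
    by_contra hn
    refine hw _ (hclT b').isOpen_compl hn ?_
    have hsub : {b | z b ∈ {v : ι → Y | ∀ i j, |h b' j (v i)| ≤ c / 2}ᶜ} ⊆
        ⋃ i, ⋃ j, {b | c / 2 ≤ |h b' j (z b i)|} := by
      intro b hb
      simp only [Set.mem_ofPred_eq, Set.mem_compl_iff, not_forall, not_le] at hb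
      obtain ⟨i, j, hij⟩ := hb
      simp only [Set.mem_iUnion]
      exact ⟨i, j, hij.le⟩
    refine Set.Countable.mono hsub ?_
    exact Set.countable_iUnion fun i => Set.countable_iUnion fun j => hcnt b' j i
  have hwE : ∀ b', w ∉ {v : ι → Y | ∃ i j, c ≤ |h b' j (v i)|} := by
    intro b' hE
    obtain ⟨i, j, hij⟩ := hE
    have := hwT b' i j
    linarith
  -- (1)
  have hS : ∀ b, {b' | z b ∉ {v : ι → Y | ∃ i j, c ≤ |h b' j (v i)|}}.Countable := by
    intro b
    have hsub : {b' | z b ∉ {v : ι → Y | ∃ i j, c ≤ |h b' j (v i)|}} ⊆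
        {b} ∪ ⋃ i, ⋃ j, {b' | c / 2 ≤ |h b j (z b' i)|} := by
      intro b' hb'
      by_cases hbb : b = b'
      · left; exact hbb.symm
      · right
        rcases hno b b' hbb with ⟨i, j, hij⟩ | h2
        · simp only [Set.mem_iUnion]
          exact ⟨i, j, by simp only [Set.mem_ofPred_eq]; linarith⟩
        · exact absurd h2 hb'
    refine Set.Countable.mono hsub ?_
    exact (Set.countable_singleton b).union
      (Set.countable_iUnion fun i => Set.countable_iUnion fun j => hcnt b j i)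
  -- (2)
  have hwcl : w ∈ closure (Set.range z) := by
    rw [mem_closure_iff]
    intro U hU hwU
    have hne : {b | z b ∈ U}.Nonempty := by
      by_contra hn
      rw [Set.not_nonempty_iff_eq_empty] at hn
      exact hw U hU hwU (by rw [hn]; exact Set.countable_empty)
    obtain ⟨b, hb⟩ := hne
    exact ⟨z b, hb, b, rfl⟩
  obtain ⟨B, hBr, hBc, hwB⟩ := hY ι (Set.range z) w hwcl
  have hch : ∀ v : B, ∃ b, z b = v := fun v => hBr v.2
  choose a ha using hch
  have := hBc.to_subtype
  have hU : (⋃ v : B, {b' | z (a v) ∉ {v : ι → Y | ∃ i j, c ≤ |h b' j (v i)|}}).Countable :=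
    Set.countable_iUnion fun v => hS (a v)
  have hex : ∃ b', b' ∉ ⋃ v : B, {b' | z (a v) ∉ {v : ι → Y | ∃ i j, c ≤ |h b' j (v i)|}} := by
    by_contra hn
    push Not at hn
    exact hA (Set.countable_univ_iff.mp (hU.mono fun b _ => hn b))
  obtain ⟨b', hb'⟩ := hex
  apply hwE b'
  have hBE : B ⊆ {v : ι → Y | ∃ i j, c ≤ |h b' j (v i)|} := by
    intro v hv
    by_contra hn
    apply hb'
    simp only [Set.mem_iUnion]
    refine ⟨⟨v, hv⟩, ?_⟩
    change z (a ⟨v, hv⟩) ∉ {v : ι → Y | ∃ i j, c ≤ |h b' j (v i)|}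
    rw [ha ⟨v, hv⟩]
    exact hn
  exact (hclE b').closure_subset_iff.mpr hBE hwB

end Pool.Agent.H48.AG
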