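import Pool.Agent.H24.AG.Targets

set_option autoImplicit false

open MeasureTheory ProbabilityTheory Filter Topology Finset
open scoped Nat ENNReal

namespace Pool.Agent.H48.AG

open Pool.Agent.H24.AG

/-- subsets of `Fin (j + 1)` without and with the point `0` -/
theorem prod_finset_succ {j : ℕ} (G : Finset (Fin (j + 1)) → ℝ) :
    ∏ ω : Finset (Fin (j + 1)), G ω = ∏ ω : Finset (Fin j),
      (G (ω.map (Fin.succEmb j)) * G (insert 0 (ω.map (Fin.succEmb j)))) := by
  have h0 : (0 : Fin (j + 1)) ∉ (univ : Finset (Fin j)).map (Fin.succEmb j) := by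
    rw [Finset.mem_map]
    rintro ⟨i, -, hi⟩
    exact absurd hi (Fin.succ_ne_zero i)
  have h1 : (univ : Finset (Fin (j + 1))) =
      insert 0 ((univ : Finset (Fin j)).map (Fin.succEmb j)) := by
    ext i
    simp only [mem_univ, Finset.mem_insert, Finset.mem_map, true_and, true_iff]
    rcases Fin.eq_zero_or_eq_succ i with h | ⟨k, hk⟩
    · exact Or.inl h
    · exact Or.inr ⟨k, hk.symm⟩
  have h2 : (univ : Finset (Finset (Fin (j + 1)))) =
      (insert 0 ((univ : Finset (Fin j)).map (Fin.succEmb j))).powerset := by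
    rw [← h1, Finset.powerset_univ]
  have h3 : ((univ : Finset (Fin j)).map (Fin.succEmb j)).powerset =
      (univ : Finset (Finset (Fin j))).map (Finset.mapEmbedding (Fin.succEmb j)).toEmbedding := by
    ext t
    rw [Finset.mem_powerset, Finset.subset_map_iff, Finset.mem_map]
    constructor
    · rintro ⟨u, -, hu⟩
      exact ⟨u, mem_univ _, hu.symm⟩
    · rintro ⟨u, -, hu⟩
      exact ⟨u, Finset.subset_univ _, hu.symm⟩
  rw [h2, Finset.prod_powerset_insert h0, h3, Finset.prod_map, Finset.prod_map,
    ← Finset.prod_mul_distrib]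
  rfl

theorem pf_VVP : T_VVP := by
  intro X _ μ _ T j g F t _
  induction j generalizing F with
  | zero =>
    rw [vv_zero]
    refine integral_congr_ae (ae_of_all _ fun x => ?_)
    beta_reduce
    rw [Fintype.prod_unique]
    have h : (default : Finset (Fin 0)) = ∅ := rfl
    rw [h, Finset.sum_empty, zp_zero]
  | succ j ih =>
    rw [vv_succ, ih]
    refine integral_congr_ae (ae_of_all _ fun x => ?_)
    beta_reduce
    rw [prod_finset_succ]
    refine Finset.prod_congr rfl fun ω _ => ?_
    have h0 : (0 : Fin (j + 1)) ∉ ω.map (Fin.succEmb j) := by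
      rw [Finset.mem_map]
      rintro ⟨i, -, hi⟩
      exact absurd hi (Fin.succ_ne_zero i)
    rw [Finset.sum_insert h0, Finset.sum_map, zp_add]
    rfl

end Pool.Agent.H48.AG
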